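import Pool.Agent.Y928.PL.Finite
import Pool.Agent.TH456.TM.Inst

/-! # Three numbers every two of which have a simultaneous irrationality measure -/

set_option autoImplicit false

namespace Pool.Agent.Y928.PN

open Finset Polynomial
open Pool.Agent.Y928.JL.Fam
open Pool.Agent.Y928.PL (cpx finite_family)

/-- the hypothesis of `finite_family` -/
def Ms (T : Finset ℕ) (x : ℕ → ℝ) (μ c0 : ℝ) : Prop :=
  ∀ q : ℕ, 1 ≤ q → ∀ p : ℕ → ℤ, ∃ j ∈ T, c0 ≤ (q : ℝ) ^ (μ - 1) * |(q : ℝ) * x j - p j|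

/-- at every large scale one of the numbers has large linear complexity -/
theorem one_large (T : Finset ℕ) (hT : T.Nonempty) (x : ℕ → ℝ) (μ c0 : ℝ) (hμ : 1 < μ) (hc0 : 0 < c0)
    (hM : Ms T x μ c0) (η : ℝ) (hη : 0 < η) :
    ∃ L0 : ℕ, ∀ b : ℕ, 2 ≤ b → ∀ L : ℕ, L0 ≤ L → ∃ j ∈ T,
      (L : ℝ) ≤ (T.card * μ + η) * complexity b (x j) L := by
  classical
  obtain ⟨C, hC, h1, -⟩ := finite_family T hT x μ c0 hμ hc0 hM 1
  have hT0 : 1 ≤ T.card := hT.card_pos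
  have hTR : (1 : ℝ) ≤ T.card := by exact_mod_cast hT0
  have hμ0 : 0 < μ := by linarith
  have hTμ : 0 < T.card * μ := by positivity
  obtain ⟨ε, hε, hε1⟩ : ∃ ε : ℝ, 0 < ε ∧ T.card * μ * (1 + ε) = T.card * μ + η / 2 :=
    ⟨η / (2 * (T.card * μ)), by positivity, by field_simp⟩
  obtain ⟨K, hK0, hK⟩ := F_linear C ε hC hε
  have hjoint : ∀ b : ℕ, 2 ≤ b → ∀ L : ℕ,
      jointComplexity b T x 0 L ≤ ∑ i ∈ T, complexity b (x i) L := by
    intro b hb L
    choose cc hcc using fun i => attained b (x i) L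
    obtain ⟨d, hd⟩ := common_fam T (fun i => digit b (x i)) cc (fun i => complexity b (x i) L) L
      (fun i _ => hcc i)
    exact Nat.sInf_le ⟨fun i => digit b (x i), d, ∅, by simp, fun i hi =>
      ⟨dig_abs b hb _, fun l _ _ => rfl, hd i hi⟩⟩
  refine ⟨⌈2 * μ * K * (T.card * μ + η) / η⌉₊ + 1, fun b hb L hL => ?_⟩
  have hLR : 2 * μ * K * (T.card * μ + η) / η < L := by
    have h1 := Nat.le_ceil (2 * μ * K * (T.card * μ + η) / η)
    have h2 : ((⌈2 * μ * K * (T.card * μ + η) / η⌉₊ + 1 : ℕ) : ℝ) ≤ L := by exact_mod_cast hL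
    push_cast at h2
    linarith
  rw [div_lt_iff₀ hη] at hLR
  by_contra hcon
  push Not at hcon
  have h2 := h1 b hb 0 L
  rw [Finset.sum_range_one, zero_add, pow_one] at h2
  have h3 := F_mono hC.le (hjoint b hb L)
  have h4 := hK (∑ i ∈ T, complexity b (x i) L)
  have h5 : (T.card * μ + η) * ((∑ i ∈ T, complexity b (x i) L : ℕ) : ℝ) ≤ T.card * L := by
    push_cast
    rw [mul_sum]
    calc ∑ i ∈ T, (T.card * μ + η) * (complexity b (x i) L : ℝ) ≤ ∑ _i ∈ T, (L : ℝ) :=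
          sum_le_sum fun i hi => (hcon i hi).le
      _ = T.card * L := by rw [sum_const, nsmul_eq_mul]
  generalize ((∑ i ∈ T, complexity b (x i) L : ℕ) : ℝ) = M at h4 h5
  have h6 : (L : ℝ) ≤ μ * ((1 + ε) * M + K) := h2.trans (mul_le_mul_of_nonneg_left (h3.trans h4) hμ0.le)
  -- multiply by `T.card μ + η`
  have h7 : (T.card * μ + η) * (L : ℝ) ≤ (T.card * μ + η / 2) * L + μ * K * (T.card * μ + η) := by
    calc (T.card * μ + η) * (L : ℝ) ≤ (T.card * μ + η) * (μ * ((1 + ε) * M + K)) :=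
          mul_le_mul_of_nonneg_left h6 (by positivity)
      _ = μ * (1 + ε) * ((T.card * μ + η) * M) + μ * K * (T.card * μ + η) := by ring
      _ ≤ μ * (1 + ε) * (T.card * L) + μ * K * (T.card * μ + η) := by
          have : 0 ≤ μ * (1 + ε) := by positivity
          linarith [mul_le_mul_of_nonneg_left h5 this]
      _ = (T.card * μ * (1 + ε)) * L + μ * K * (T.card * μ + η) := by ring
      _ = _ := by rw [hε1]
  linarith

/-- the measure for two numbers whose difference is `(4/3) π²` -/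
theorem pi_pair : ∃ κ c : ℝ, 0 ≤ κ ∧ 0 < c ∧ ∀ x y : ℝ, x - y = 4 / 3 * Real.pi ^ 2 →
    ∀ q : ℕ, 1 ≤ q → ∀ p r : ℤ, c ≤ (q : ℝ) ^ κ * max |(q : ℝ) * x - p| |(q : ℝ) * y - r| := by
  obtain ⟨κ, c, hκ, hc, h⟩ := Pool.Agent.TH456.TM.measT_pi 2
  have h50 : (0 : ℝ) < 50 ^ κ := by positivity
  refine ⟨κ, min (1 / 6) (c / (6 * 50 ^ κ)), hκ, by positivity, fun x y hxy q hq p r => ?_⟩
  have hqR : (1 : ℝ) ≤ q := by exact_mod_cast hq
  have hqκ : (1 : ℝ) ≤ (q : ℝ) ^ κ := Real.one_le_rpow hqR hκ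
  by_contra hcon
  push Not at hcon
  obtain ⟨δ, hδ⟩ : ∃ δ : ℝ, δ = max |(q : ℝ) * x - p| |(q : ℝ) * y - r| := ⟨_, rfl⟩
  rw [← hδ] at hcon
  have hδ0 : 0 ≤ δ := by rw [hδ]; positivity
  have h1 : |(q : ℝ) * x - p| ≤ δ := by rw [hδ]; exact le_max_left _ _
  have h2 : |(q : ℝ) * y - r| ≤ δ := by rw [hδ]; exact le_max_right _ _
  have hc6 : (q : ℝ) ^ κ * δ < 1 / 6 := hcon.trans_le (min_le_left _ _)
  have hcc : (q : ℝ) ^ κ * δ < c / (6 * 50 ^ κ) := hcon.trans_le (min_le_right _ _)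
  have hδ6 : δ < 1 / 6 := by
    have := mul_le_mul_of_nonneg_right hqκ hδ0
    linarith
  have hlin : |4 * (q : ℝ) * Real.pi ^ 2 - 3 * ((p : ℝ) - r)| ≤ 6 * δ := by
    have e : 4 * (q : ℝ) * Real.pi ^ 2 - 3 * ((p : ℝ) - r) =
        3 * (((q : ℝ) * x - p) - ((q : ℝ) * y - r)) := by
      have : 4 * (q : ℝ) * Real.pi ^ 2 = 3 * (q * (4 / 3 * Real.pi ^ 2)) := by ring
      rw [this, ← hxy]
      ring
    rw [e, abs_mul, abs_of_pos (by norm_num : (0 : ℝ) < 3)]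
    have := abs_sub ((q : ℝ) * x - p) ((q : ℝ) * y - r)
    linarith
  have hpi : Real.pi ^ 2 < 10 := by
    have h3 := Real.pi_lt_d2
    have h4 := Real.pi_pos
    nlinarith
  have hpr : |3 * ((p : ℝ) - r)| ≤ 50 * (q : ℝ) := by
    have h3 : |3 * ((p : ℝ) - r)| ≤ |4 * (q : ℝ) * Real.pi ^ 2 - 3 * ((p : ℝ) - r)| +
        |4 * (q : ℝ) * Real.pi ^ 2| := by
      have h4 := abs_sub (4 * (q : ℝ) * Real.pi ^ 2) (4 * (q : ℝ) * Real.pi ^ 2 - 3 * ((p : ℝ) - r))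
      have e : 4 * (q : ℝ) * Real.pi ^ 2 - (4 * (q : ℝ) * Real.pi ^ 2 - 3 * ((p : ℝ) - r)) =
        3 * ((p : ℝ) - r) := by ring
      rw [e] at h4
      linarith
    have h5 : |4 * (q : ℝ) * Real.pi ^ 2| ≤ 40 * (q : ℝ) := by
      rw [abs_of_nonneg (by positivity)]
      nlinarith
    linarith
  -- the polynomial
  set P : ℤ[X] := C (4 * (q : ℤ)) * X ^ 2 - C (3 * (p - r)) with hP
  have hc2 : P.coeff 2 = 4 * q := by
    rw [hP, coeff_sub, coeff_C_mul, coeff_X_pow, if_pos rfl, coeff_C, if_neg (by norm_num)]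
    ring
  have hP0 : P ≠ 0 := by
    intro h0
    rw [h0, coeff_zero] at hc2
    omega
  have hdeg : P.natDegree ≤ 2 := by
    rw [hP]
    refine (natDegree_sub_le _ _).trans ?_
    rw [max_le_iff]
    refine ⟨natDegree_C_mul_X_pow_le _ _, ?_⟩
    rw [natDegree_C]
    omega
  have hcoef : ∀ j, |(P.coeff j : ℝ)| ≤ 50 * (q : ℝ) := by
    intro j
    rw [hP, coeff_sub, coeff_C_mul, coeff_X_pow, coeff_C]
    rcases eq_or_ne j 0 with rfl | h0
    · rw [if_neg (by norm_num), if_pos rfl, mul_zero, zero_sub]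
      push_cast
      rw [abs_neg]
      exact hpr
    · rw [if_neg h0, sub_zero]
      rcases eq_or_ne j 2 with rfl | h3
      · rw [if_pos rfl, mul_one]
        push_cast
        rw [abs_of_nonneg (by positivity)]
        linarith
      · rw [if_neg h3, mul_zero]
        simp
  have h3 := h P hP0 hdeg (50 * (q : ℝ)) (by linarith) hcoef
  have hval : ‖aeval (Real.pi : ℂ) P‖ = |4 * (q : ℝ) * Real.pi ^ 2 - 3 * ((p : ℝ) - r)| := by
    have e : aeval (Real.pi : ℂ) P = ((4 * (q : ℝ) * Real.pi ^ 2 - 3 * ((p : ℝ) - r) : ℝ) : ℂ) := by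
      rw [hP, map_sub, map_mul, map_pow, aeval_X, aeval_C, aeval_C]
      simp only [algebraMap_int_eq, eq_intCast]
      push_cast
      ring
    rw [e, Complex.norm_real, Real.norm_eq_abs]
  rw [hval, Real.mul_rpow (by norm_num) (by linarith)] at h3
  have h4 : c < c := by
    calc c ≤ 50 ^ κ * (q : ℝ) ^ κ * |4 * (q : ℝ) * Real.pi ^ 2 - 3 * ((p : ℝ) - r)| := h3
      _ ≤ 50 ^ κ * (q : ℝ) ^ κ * (6 * δ) := mul_le_mul_of_nonneg_left hlin (by positivity)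
      _ = (6 * 50 ^ κ) * ((q : ℝ) ^ κ * δ) := by ring
      _ < (6 * 50 ^ κ) * (c / (6 * 50 ^ κ)) := mul_lt_mul_of_pos_left hcc (by positivity)
      _ = c := by field_simp
  exact lt_irrefl _ h4

/-- the two conclusions for one family -/
def Concl (T : Finset ℕ) (x : ℕ → ℝ) (μ : ℝ) (h : ℕ) (C : ℝ) : Prop :=
  (∀ b : ℕ, 2 ≤ b → ∀ k L : ℕ, (L : ℝ) ≤ (∑ i ∈ range (k + 1), μ ^ (i + 1)) *
    F C (jointComplexity b T x k L)) ∧
  ∀ b : ℕ → ℕ, (∀ j ∈ T, 2 ≤ b j) → ∀ s : ℕ → ℕ → ℤ,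
    (∀ j ∈ T, ∀ i, |s j i| ≤ ((b j ^ h : ℕ) : ℤ)) →
    (∀ j ∈ T, ∃ n : ℤ,
      HasSum (fun i : ℕ => (s j (i + 1) : ℝ) / (b j : ℝ) ^ (i + 1)) (x j - n)) →
    ∀ L : ℕ → ℕ, ∃ j ∈ T, (L j : ℝ) * Real.log (b j) ≤
      F C (cpx (s j) (L j)) * Real.log (b j) +
        μ * ∑ i ∈ T, F C (cpx (s i) (L i)) * Real.log (b i)

lemma Concl.mono {T : Finset ℕ} {x : ℕ → ℝ} {μ : ℝ} (hμ : 0 ≤ μ) {h : ℕ} {C C' : ℝ} (hC : C ≤ C')
    (H : Concl T x μ h C) : Concl T x μ h C' := by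
  refine ⟨fun b hb k L => ?_, fun b hb s hs hsum L => ?_⟩
  · refine (H.1 b hb k L).trans ?_
    exact mul_le_mul_of_nonneg_left (F_mono' hC _) (sum_nonneg fun _ _ => by positivity)
  · obtain ⟨j, hj, h1⟩ := H.2 b hb s hs hsum L
    refine ⟨j, hj, h1.trans ?_⟩
    have hlog : ∀ i ∈ T, 0 ≤ Real.log (b i) := fun i hi => Real.log_natCast_nonneg _
    have h2 : ∀ i ∈ T, F C (cpx (s i) (L i)) * Real.log (b i) ≤
        F C' (cpx (s i) (L i)) * Real.log (b i) := fun i hi =>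
      mul_le_mul_of_nonneg_right (F_mono' hC _) (hlog i hi)
    have h3 := sum_le_sum h2
    have h4 := mul_le_mul_of_nonneg_left h3 hμ
    linarith [h2 j hj]

lemma pairs {T : Finset ℕ} (hT : T ⊆ {0, 1, 2}) (hc : T.card = 2) :
    T = {0, 1} ∨ T = {0, 2} ∨ T = {1, 2} := by
  have h1 : T ∈ ({0, 1, 2} : Finset ℕ).powersetCard 2 := mem_powersetCard.2 ⟨hT, hc⟩
  have h2 : ({0, 1, 2} : Finset ℕ).powersetCard 2 = {{0, 1}, {0, 2}, {1, 2}} := by decide
  rw [h2] at h1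
  simpa using h1

/-- **three numbers** -/
theorem three (x : ℕ → ℝ) (hx : x 1 - x 2 = 4 / 3 * Real.pi ^ 2)
    (h01 : ∃ c0 : ℝ, 0 < c0 ∧ Ms {0, 1} x 4000 c0) (h02 : ∃ c0 : ℝ, 0 < c0 ∧ Ms {0, 2} x 4000 c0) :
    ∃ μ : ℝ, 4000 ≤ μ ∧
      (∀ h : ℕ, ∃ C : ℝ, 0 < C ∧ ∀ T : Finset ℕ, T ⊆ {0, 1, 2} → T.card = 2 →
        Concl T x (if 0 ∈ T then 4000 else μ) h C) ∧
      ∃ L0 : ℕ, ∀ b : ℕ, 2 ≤ b → ∀ L : ℕ, L0 ≤ L →
        (∀ T : Finset ℕ, T ⊆ {0, 1, 2} → T.card = 2 → 0 ∈ T →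
          ∃ j ∈ T, (L : ℝ) ≤ 8001 * complexity b (x j) L) ∧
        2 ≤ (({0, 1, 2} : Finset ℕ).filter
          (fun j => (L : ℝ) ≤ (2 * μ + 1) * complexity b (x j) L)).card := by
  classical
  obtain ⟨κ, c, hκ, hc, hpi⟩ := pi_pair
  obtain ⟨c1, hc1, hM1⟩ := h01
  obtain ⟨c2, hc2, hM2⟩ := h02
  set μ : ℝ := 4000 + κ with hμ
  have hμ0 : 4000 ≤ μ := by rw [hμ]; linarith
  have hM3 : Ms {1, 2} x μ c := by
    intro q hq p
    have h1 := hpi (x 1) (x 2) hx q hq (p 1) (p 2)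
    have hqR : (1 : ℝ) ≤ q := by exact_mod_cast hq
    have h2 : (q : ℝ) ^ κ ≤ (q : ℝ) ^ (μ - 1) :=
      Real.rpow_le_rpow_of_exponent_le hqR (by rw [hμ]; linarith)
    rcases max_choice |(q : ℝ) * x 1 - p 1| |(q : ℝ) * x 2 - p 2| with h3 | h3
    · rw [h3] at h1
      exact ⟨1, by simp, h1.trans (mul_le_mul_of_nonneg_right h2 (abs_nonneg _))⟩
    · rw [h3] at h1
      exact ⟨2, by simp, h1.trans (mul_le_mul_of_nonneg_right h2 (abs_nonneg _))⟩
  refine ⟨μ, hμ0, fun h => ?_, ?_⟩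
  · obtain ⟨C1, hC1, H1⟩ := finite_family {0, 1} ⟨0, by simp⟩ x 4000 c1 (by norm_num) hc1 hM1 h
    obtain ⟨C2, hC2, H2⟩ := finite_family {0, 2} ⟨0, by simp⟩ x 4000 c2 (by norm_num) hc2 hM2 h
    obtain ⟨C3, hC3, H3⟩ := finite_family {1, 2} ⟨1, by simp⟩ x μ c (by linarith) hc hM3 h
    have K1 : Concl {0, 1} x 4000 h C1 := H1
    have K2 : Concl {0, 2} x 4000 h C2 := H2
    have K3 : Concl {1, 2} x μ h C3 := H3
    refine ⟨max C1 (max C2 C3), lt_max_of_lt_left hC1, fun T hT hcard => ?_⟩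
    rcases pairs hT hcard with rfl | rfl | rfl
    · rw [if_pos (by simp)]
      exact K1.mono (by norm_num) (le_max_left _ _)
    · rw [if_pos (by simp)]
      exact K2.mono (by norm_num) ((le_max_left _ _).trans (le_max_right _ _))
    · rw [if_neg (by simp)]
      exact K3.mono (by linarith) ((le_max_right _ _).trans (le_max_right _ _))
  · obtain ⟨L1, hL1⟩ := one_large {0, 1} ⟨0, by simp⟩ x 4000 c1 (by norm_num) hc1 hM1 1 one_pos
    obtain ⟨L2, hL2⟩ := one_large {0, 2} ⟨0, by simp⟩ x 4000 c2 (by norm_num) hc2 hM2 1 one_pos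
    obtain ⟨L3, hL3⟩ := one_large {1, 2} ⟨1, by simp⟩ x μ c (by linarith) hc hM3 1 one_pos
    have q1 : ((({0, 1} : Finset ℕ).card : ℕ) : ℝ) = 2 := by
      rw [show ({0, 1} : Finset ℕ).card = 2 by decide]; norm_num
    have q2 : ((({0, 2} : Finset ℕ).card : ℕ) : ℝ) = 2 := by
      rw [show ({0, 2} : Finset ℕ).card = 2 by decide]; norm_num
    have q3 : ((({1, 2} : Finset ℕ).card : ℕ) : ℝ) = 2 := by
      rw [show ({1, 2} : Finset ℕ).card = 2 by decide]; norm_num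
    refine ⟨L1 + L2 + L3, fun b hb L hL => ?_⟩
    have g1 := hL1 b hb L (by omega)
    have g2 := hL2 b hb L (by omega)
    have g3 := hL3 b hb L (by omega)
    rw [q1] at g1
    rw [q2] at g2
    rw [q3] at g3
    have e8 : (2 : ℝ) * 4000 + 1 = 8001 := by norm_num
    rw [e8] at g1 g2
    refine ⟨fun T hT hcard h0 => ?_, ?_⟩
    · rcases pairs hT hcard with rfl | rfl | rfl
      · exact g1
      · exact g2
      · simp at h0
    · -- every pair contains a member of the filter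
      set W := ({0, 1, 2} : Finset ℕ).filter
        (fun j => (L : ℝ) ≤ (2 * μ + 1) * complexity b (x j) L) with hW
      have hall : ∀ T : Finset ℕ, T ⊆ {0, 1, 2} → T.card = 2 → ∃ j ∈ T, j ∈ W := by
        intro T hT hcard
        rcases pairs hT hcard with rfl | rfl | rfl
        · obtain ⟨j, hj, h1⟩ := g1
          refine ⟨j, hj, ?_⟩
          rw [hW, mem_filter]
          refine ⟨hT hj, h1.trans ?_⟩
          exact mul_le_mul_of_nonneg_right (by linarith) (Nat.cast_nonneg _)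
        · obtain ⟨j, hj, h1⟩ := g2
          refine ⟨j, hj, ?_⟩
          rw [hW, mem_filter]
          refine ⟨hT hj, h1.trans ?_⟩
          exact mul_le_mul_of_nonneg_right (by linarith) (Nat.cast_nonneg _)
        · obtain ⟨j, hj, h1⟩ := g3
          exact ⟨j, hj, by rw [hW, mem_filter]; exact ⟨hT hj, h1⟩⟩
      have hWs : W ⊆ {0, 1, 2} := filter_subset _ _
      by_contra hcon
      have hlt : W.card ≤ 1 := by omega
      have h3 : 2 ≤ (({0, 1, 2} : Finset ℕ) \ W).card := by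
        have h4 := card_sdiff_add_card_eq_card hWs
        have h5 : ({0, 1, 2} : Finset ℕ).card = 3 := by decide
        omega
      obtain ⟨T, hT1, hT2⟩ := exists_subset_card_eq h3
      obtain ⟨j, hj, hjW⟩ := hall T (hT1.trans sdiff_subset) hT2
      exact (mem_sdiff.1 (hT1 hj)).2 hjW

end Pool.Agent.Y928.PN
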